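import Pool.Agent.H95.GY.Targets

/-!
Module ARC of the board gy_modules: an arc in the fibre.
-/

set_option autoImplicit false

open Filter Topology MeasureTheory Set
open scoped Pointwise

universe u

namespace Pool.Agent.H29.GY

open Pool.Agent.H95.GY

theorem arc_idx {G : Type u} [Group G] (H N : Subgroup G) [N.Normal]
    (h : H.relIndex (H ⊔ N) = 0) : H.relIndex N = 0 := by
  by_contra hN
  have hfi : (H.subgroupOf N).FiniteIndex := ⟨hN⟩
  have hf : Finite (N ⧸ H.subgroupOf N) := Subgroup.finite_quotient_of_finiteIndex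
  have hle : N ≤ H ⊔ N := le_sup_right
  have hsurj : Function.Surjective (Subgroup.quotientSubgroupOfEmbeddingOfLE H hle) := by
    intro q
    obtain ⟨⟨x, hx⟩, rfl⟩ := QuotientGroup.mk_surjective q
    have hx2 : x ∈ N ⊔ H := by rwa [sup_comm]
    obtain ⟨n, hn, y, hy, hny⟩ := Subgroup.mem_sup_of_normal_left.1 hx2
    refine ⟨QuotientGroup.mk (⟨n, hn⟩ : N), ?_⟩
    rw [Subgroup.quotientSubgroupOfEmbeddingOfLE_apply_mk, QuotientGroup.eq]
    rw [Subgroup.mem_subgroupOf]
    simp only [Subgroup.coe_mul, Subgroup.coe_inv, Subgroup.coe_inclusion]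
    rw [← hny]
    simpa using hy
  have hf2 : Finite (↥(H ⊔ N) ⧸ H.subgroupOf (H ⊔ N)) := Finite.of_surjective _ hsurj
  exact Subgroup.index_ne_zero_of_finite (H := H.subgroupOf (H ⊔ N)) h

theorem arc_nss {Q : Type u} [Group Q] [TopologicalSpace Q] (h : NSS Q) (M : Subgroup Q) :
    NSS M := by
  obtain ⟨O, hO, h1, hH⟩ := h
  refine ⟨(fun x : M => (x : Q)) ⁻¹' O, hO.preimage continuous_subtype_val, ?_, ?_⟩
  · intro x hx
    apply h1
    have : x = 1 := by simpa using hx
    simp [this]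
  · intro H hHO
    have h2 := hH (H.map M.subtype) (by
      rintro _ ⟨x, hx, rfl⟩
      exact hHO hx)
    intro x hx
    have h3 : (x : Q) ∈ (⊥ : Subgroup Q) := h2 ⟨x, hx, rfl⟩
    rw [Subgroup.mem_bot] at h3 ⊢
    exact Subtype.ext h3

theorem arc_cyc (Z : AddSubgroup ℝ) (hZ : IsClosed (Z : Set ℝ)) (t₀ : ℝ) (ht₀ : t₀ ∉ Z) :
    ∃ ε : ℝ, 0 < ε ∧ ∀ t ∈ Z, |t| ≤ ε → t = 0 := by
  rcases AddSubgroup.dense_or_cyclic Z with hd | ⟨b, hb⟩
  · exfalso
    apply ht₀
    have : t₀ ∈ closure (Z : Set ℝ) := hd t₀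
    rwa [hZ.closure_eq] at this
  · rcases eq_or_ne b 0 with h0 | h0
    · refine ⟨1, one_pos, fun t ht _ => ?_⟩
      rw [hb, AddSubgroup.mem_closure_singleton] at ht
      obtain ⟨k, hk⟩ := ht
      rw [← hk, h0, smul_zero]
    · refine ⟨|b| / 2, by positivity, fun t ht hte => ?_⟩
      rw [hb, AddSubgroup.mem_closure_singleton] at ht
      obtain ⟨k, hk⟩ := ht
      have hbp : 0 < |b| := abs_pos.2 h0
      have h1 : |t| = |(k : ℝ)| * |b| := by
        rw [← hk, zsmul_eq_mul, abs_mul]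
      have hk0 : k = 0 := by
        by_contra hk0
        have h2 : (1 : ℝ) ≤ |(k : ℝ)| := by
          have : (1 : ℤ) ≤ |k| := Int.one_le_abs hk0
          exact_mod_cast this
        nlinarith
      rw [← hk, hk0, zero_smul]

theorem pf_ARC (hLFT : T_LFT.{u}) (hOPN : T_OPN.{u}) (hQNS : T_QNS.{u}) : T_ARC.{u} := by
  intro G _ _ _ _ _ hG K hK N N' hN hN' hle hidx
  have := hN'.normal
  have := hN.normal
  obtain ⟨hT2, hLC, hNSS⟩ := hQNS G N' hN'.compact hN'.trap
  set π : G →* G ⧸ N' := QuotientGroup.mk' N' with hπ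
  have hπc : Continuous π := continuous_quot_mk
  have hker : π.ker = N' := QuotientGroup.ker_mk' N'
  set M : Subgroup (G ⧸ N') := N.map π with hM
  have hMc : IsCompact (M : Set (G ⧸ N')) := by
    rw [hM, Subgroup.coe_map]
    exact hN.compact.image hπc
  have : CompactSpace M := isCompact_iff_compactSpace.1 hMc
  set P₀ : Subgroup (G ⧸ N') := (K ⊔ N').map π with hP₀
  have hP₀' : P₀ = K.map π := by
    rw [hP₀, Subgroup.map_sup]
    have : N'.map π = ⊥ := by
      rw [Subgroup.map_eq_bot_iff, hker]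
    rw [this, sup_bot_eq]
  have hP₀c : IsClosed (P₀ : Set (G ⧸ N')) := by
    rw [hP₀', Subgroup.coe_map]
    exact (hK.image hπc).isClosed
  set P : Subgroup M := P₀.subgroupOf M with hP
  have hPc : IsClosed (P : Set M) := hP₀c.preimage continuous_subtype_val
  have hidx2 : P.index = 0 := by
    have h1 : P.index = P₀.relIndex M := rfl
    rw [h1, hP₀, hM, Subgroup.relIndex_map_map, hker, sup_assoc, sup_idem,
      sup_eq_left.2 hle]
    apply arc_idx
    have h2 : K ⊔ N' ⊔ N = K ⊔ N := by rw [sup_assoc, sup_eq_right.2 hle]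
    rw [h2]
    exact hidx
  obtain ⟨X, hX, t₀, ht₀⟩ := hOPN M (arc_nss hNSS M) P hPc hidx2
  have hX' : IsOPS fun t => ((X t : M) : G ⧸ N') := hX.map M.subtype continuous_subtype_val
  obtain ⟨n, e, ρ, j, hch, -, -, -, hj, hje, -, -⟩ := hLFT G hG ⊥ (by
    rw [Subgroup.coe_bot]; exact isCompact_singleton) N' hN'
  obtain ⟨v, hv⟩ := hch.surj _ hX'
  refine ⟨j v, hj v, fun t => ?_, ?_⟩
  · have h1 : (QuotientGroup.mk (j v t) : G ⧸ N') ∈ M := by
      rw [hje, hv]
      exact (X t).2
    obtain ⟨x, hx, hxe⟩ := h1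
    have h2 : x⁻¹ * j v t ∈ N' := by
      rw [← QuotientGroup.eq]
      exact hxe
    have h3 : x * (x⁻¹ * j v t) ∈ N := N.mul_mem hx (hle h2)
    simpa using h3
  · let Z : AddSubgroup ℝ :=
      { carrier := {t | X t ∈ P}
        zero_mem' := by
          change X 0 ∈ P
          rw [hX.zero]
          exact P.one_mem
        add_mem' := by
          intro s t hs ht
          change X (s + t) ∈ P
          rw [hX.add]
          exact P.mul_mem hs ht
        neg_mem' := by
          intro t ht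
          change X (-t) ∈ P
          rw [hX.neg]
          exact P.inv_mem ht }
    have hZc : IsClosed (Z : Set ℝ) := hPc.preimage hX.cont
    obtain ⟨ε, hε, hεt⟩ := arc_cyc Z hZc t₀ ht₀
    refine ⟨ε, hε, fun t ht hmem => hεt t ?_ ht⟩
    change X t ∈ P
    rw [hP, Subgroup.mem_subgroupOf]
    have h4 : ((X t : M) : G ⧸ N') = π (j v t) := by
      have := congrFun hv t
      rw [← this, ← hje]
      rfl
    rw [h4]
    exact ⟨_, hmem, rfl⟩

end Pool.Agent.H29.GY
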