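import Pool.Agent.H95.GY.Targets
import Pool.Agent.H78.CM.Asm

/-!
Module CAR of the board gy_modules: closed subgroups of matrix groups (theorem of Cartan).
-/

set_option autoImplicit false

open Filter Topology MeasureTheory Set
open scoped Pointwise

universe u

namespace Pool.Agent.H29.GY

open Pool.Agent.H95.GY Pool.Agent.H78.CM

/-- the version for a finite-dimensional normed algebra -/
theorem car_abs (K : Type u) [Group K] [TopologicalSpace K] [IsTopologicalGroup K]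
    [CompactSpace K] (A : Type) [NormedRing A] [NormedAlgebra ℝ A] [NormOneClass A]
    [FiniteDimensional ℝ A] [CompleteSpace A] (σ : K →* A) (hσ : Continuous σ) :
    ∃ L : Submodule ℝ A, (∀ a : A, a ∈ L ↔ ∀ t : ℝ, ∃ k, σ k = NormedSpace.exp (t • a)) ∧
      ∀ W ∈ 𝓝 (0 : A), ∃ V ∈ 𝓝 (1 : A), ∀ k, σ k ∈ V → ∃ a ∈ L, a ∈ W ∧
        σ k = NormedSpace.exp a := by
  have hT : OneP (fun _ : ℝ => (univ : Set K)) := by
    refine ⟨?_, ?_, ?_, ?_⟩
    · simp
    · intros; trivial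
    · intros; trivial
    · intro _; exact univ_nonempty
  have hcnv := cnv_all K (fun _ => univ) hT A σ hσ
  let P : A → Prop := fun a => ∀ t : ℝ, ∃ k, σ k = NormedSpace.exp (t • a)
  have hP : ∀ a, P a ↔ ∀ t : ℝ, ∃ l ∈ (univ : Set K), σ l = NormedSpace.exp (t • a) := by
    intro a
    simp [P]
  have hsmul : ∀ (c : ℝ) (a : A), P a → P (c • a) := by
    intro c a ha t
    obtain ⟨k, hk⟩ := ha (t * c)
    exact ⟨k, by rw [hk, smul_smul]⟩
  let L : Submodule ℝ A :=
    { carrier := {a | P a}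
      zero_mem' := fun t => ⟨1, by simp⟩
      add_mem' := by
        intro a b ha hb
        have h1 := hcnv.2 a b ((hP a).1 ha) ((hP b).1 hb)
        have h2 : P ((1 / 2 : ℝ) • (a + b)) := (hP _).2 h1
        have h3 := hsmul 2 _ h2
        rw [smul_smul] at h3
        norm_num at h3
        exact h3
      smul_mem' := fun c a ha => hsmul c a ha }
  have hL : ∀ a, a ∈ L ↔ P a := fun a => Iff.rfl
  refine ⟨L, fun a => Iff.rfl, ?_⟩
  by_contra hcon
  push Not at hcon
  obtain ⟨W, hW, hcon⟩ := hcon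
  obtain ⟨L', hL'⟩ := Submodule.exists_isCompl L
  let F : (L × L') ≃L[ℝ] A := (Submodule.prodEquivOfIsCompl L L' hL').toContinuousLinearEquiv
  let Φ : L × L' → A := fun p => NormedSpace.exp (p.1 : A) * NormedSpace.exp (p.2 : A)
  have hexp : HasStrictFDerivAt (NormedSpace.exp : A → A) (1 : A →L[ℝ] A) 0 :=
    hasStrictFDerivAt_exp_zero
  have hΦ : HasStrictFDerivAt Φ (F : (L × L') →L[ℝ] A) 0 := by
    have h1 : HasStrictFDerivAt (fun p : L × L' => (p.1 : A))
        (L.subtypeL.comp (ContinuousLinearMap.fst ℝ L L')) 0 :=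
      (L.subtypeL.comp (ContinuousLinearMap.fst ℝ L L')).hasStrictFDerivAt
    have h2 : HasStrictFDerivAt (fun p : L × L' => (p.2 : A))
        (L'.subtypeL.comp (ContinuousLinearMap.snd ℝ L L')) 0 :=
      (L'.subtypeL.comp (ContinuousLinearMap.snd ℝ L L')).hasStrictFDerivAt
    have h3 : HasStrictFDerivAt (fun p : L × L' => NormedSpace.exp (p.1 : A))
        ((1 : A →L[ℝ] A).comp (L.subtypeL.comp (ContinuousLinearMap.fst ℝ L L'))) 0 :=
      HasStrictFDerivAt.comp (g := (NormedSpace.exp : A → A))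
        (f := fun p : L × L' => (p.1 : A)) 0 hexp h1
    have h4 : HasStrictFDerivAt (fun p : L × L' => NormedSpace.exp (p.2 : A))
        ((1 : A →L[ℝ] A).comp (L'.subtypeL.comp (ContinuousLinearMap.snd ℝ L L'))) 0 :=
      HasStrictFDerivAt.comp (g := (NormedSpace.exp : A → A))
        (f := fun p : L × L' => (p.2 : A)) 0 hexp h2
    have h5 := h3.mul' h4
    have h6 : (F : (L × L') →L[ℝ] A) =
        (NormedSpace.exp (((0 : L × L').1 : L) : A)) •
          ((1 : A →L[ℝ] A).comp (L'.subtypeL.comp (ContinuousLinearMap.snd ℝ L L'))) +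
        MulOpposite.op (NormedSpace.exp (((0 : L × L').2 : L') : A)) •
          ((1 : A →L[ℝ] A).comp (L.subtypeL.comp (ContinuousLinearMap.fst ℝ L L'))) := by
      ext p
      · simp [F]
      · simp [F]
    rw [h6]
    exact h5
  have hmap : map Φ (𝓝 0) = 𝓝 (1 : A) := by
    have := hΦ.map_nhds_eq_of_equiv
    have h1 : Φ 0 = 1 := by simp [Φ]
    rwa [h1] at this
  -- the sequence
  have hseq : ∀ n : ℕ, ∃ (k : K) (p : L × L'), ‖p‖ < 1 / ((n : ℝ) + 1) ∧ (p.1 : A) ∈ W ∧
      σ k = Φ p ∧ ∀ a ∈ L, a ∈ W → σ k ≠ NormedSpace.exp a := by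
    intro n
    have hS : {p : L × L' | ‖p‖ < 1 / ((n : ℝ) + 1) ∧ (p.1 : A) ∈ W} ∈ 𝓝 (0 : L × L') := by
      apply inter_mem
      · have : Metric.ball (0 : L × L') (1 / ((n : ℝ) + 1)) ∈ 𝓝 (0 : L × L') :=
          Metric.ball_mem_nhds _ (by positivity)
        refine mem_of_superset this fun p hp => ?_
        exact mem_ball_zero_iff.1 hp
      · have hc : Continuous fun p : L × L' => (p.1 : A) :=
          continuous_subtype_val.comp continuous_fst
        exact hc.continuousAt.preimage_mem_nhds (by simpa using hW)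
    have hV := image_mem_map (m := Φ) hS
    rw [hmap] at hV
    obtain ⟨k, hk, hk2⟩ := hcon _ hV
    obtain ⟨p, hp, hpk⟩ := hk
    exact ⟨k, p, hp.1, hp.2, hpk.symm, hk2⟩
  choose k p hp hpW hkp hne using hseq
  have hb : ∀ n, 0 < ‖(p n).2‖ := by
    intro n
    rw [norm_pos_iff]
    intro h0
    apply hne n (p n).1 (p n).1.2 (hpW n)
    rw [hkp n]
    simp [Φ, h0]
  have hl : ∀ n, ∃ l, σ l = NormedSpace.exp ((p n).1 : A) := by
    intro n
    obtain ⟨l, hl⟩ := (hL _).1 (p n).1.2 1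
    exact ⟨l, by rw [hl, one_smul]⟩
  choose l hl using hl
  have hlk : ∀ n, σ ((l n)⁻¹ * k n) = NormedSpace.exp ((p n).2 : A) := by
    intro n
    rw [map_mul, hkp n]
    simp only [Φ]
    rw [← hl n, ← mul_assoc, ← map_mul, inv_mul_cancel, map_one, one_mul]
  have hp0 : Tendsto (fun n => ‖(p n).2‖) atTop (𝓝 0) := by
    apply squeeze_zero (fun n => norm_nonneg _) (g := fun n : ℕ => 1 / ((n : ℝ) + 1))
    · intro n
      exact (norm_snd_le (p n)).trans (hp n).le
    · exact tendsto_one_div_add_atTop_nhds_zero_nat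
  -- compactness of the sphere
  have hsph : ∀ n, (‖(p n).2‖⁻¹ • (p n).2 : L') ∈ Metric.sphere (0 : L') 1 := by
    intro n
    rw [mem_sphere_zero_iff_norm, norm_smul, norm_inv, norm_norm,
      inv_mul_cancel₀ (hb n).ne']
  obtain ⟨B, hB, ψ, hψ, hlim⟩ := (isCompact_sphere (0 : L') 1).tendsto_subseq hsph
  have hBn : ‖B‖ = 1 := by simpa using hB
  -- the derivative
  have hder : Tendsto (fun m => (‖(p (ψ m)).2‖)⁻¹ • (σ ((l (ψ m))⁻¹ * k (ψ m)) - 1)) atTop
      (𝓝 (B : A)) := by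
    have h1 : Tendsto (fun m => ((p (ψ m)).2 : A)) atTop (𝓝 0) := by
      rw [tendsto_zero_iff_norm_tendsto_zero]
      exact hp0.comp hψ.tendsto_atTop
    have h2 := hexp.hasFDerivAt.isLittleO
    have h3 : (fun m => NormedSpace.exp ((p (ψ m)).2 : A) - 1 - ((p (ψ m)).2 : A)) =o[atTop]
        fun m => ((p (ψ m)).2 : A) := by
      have := h2.comp_tendsto (k := fun m => ((p (ψ m)).2 : A)) (l' := atTop) h1
      simpa [Function.comp_def] using this
    have h4 : Tendsto (fun m => (‖(p (ψ m)).2‖)⁻¹ • (NormedSpace.exp ((p (ψ m)).2 : A) - 1 -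
        ((p (ψ m)).2 : A))) atTop (𝓝 0) := by
      rw [tendsto_zero_iff_norm_tendsto_zero]
      have h5 := h3.norm_norm.tendsto_div_nhds_zero
      refine h5.congr fun m => ?_
      rw [norm_smul, norm_inv, norm_norm, div_eq_inv_mul]
      rfl
    have h6 : Tendsto (fun m => (‖(p (ψ m)).2‖)⁻¹ • ((p (ψ m)).2 : A)) atTop (𝓝 (B : A)) := by
      have := (continuous_subtype_val.tendsto B).comp hlim
      exact this
    have h7 := h4.add h6
    rw [zero_add] at h7
    refine h7.congr fun m => ?_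
    rw [hlk, ← smul_add]
    congr 1
    abel
  have hclu := clu_all K (fun _ => univ) hT A σ hσ (fun m => (l (ψ m))⁻¹ * k (ψ m))
    (fun _ => 0) (fun m => ‖(p (ψ m)).2‖) 0 (B : A) (fun _ => mem_univ _) (fun m => hb _)
    (hp0.comp hψ.tendsto_atTop) (by simp) hder
  have hBL : (B : A) ∈ L := by
    rw [hL]
    intro t
    obtain ⟨l, -, hl⟩ := hclu t
    exact ⟨l, hl⟩
  have hB0 : (B : A) = 0 := by
    have := hL'.disjoint.le_bot ⟨hBL, B.2⟩
    simpa using this
  have hB00 : B = 0 := Subtype.ext hB0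
  rw [hB00, norm_zero] at hBn
  exact zero_ne_one hBn

open scoped Matrix.Norms.L2Operator in
/-- matrices of positive size -/
theorem car_mat (K : Type u) [Group K] [TopologicalSpace K] [IsTopologicalGroup K]
    [CompactSpace K] (m : ℕ) (σ : K →* Mat m) (hσ : Continuous σ) :
    ∃ L : Submodule ℝ (Mat m), (∀ a : Mat m, a ∈ L ↔ ∀ t : ℝ, ∃ k, σ k = NormedSpace.exp (t • a)) ∧
      ∀ W ∈ 𝓝 (0 : Mat m), ∃ V ∈ 𝓝 (1 : Mat m), ∀ k, σ k ∈ V → ∃ a ∈ L, a ∈ W ∧
        σ k = NormedSpace.exp a :=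
  car_abs K (Mat m) σ hσ

theorem pf_CAR : T_CAR.{u} := by
  intro K _ _ _ _ _ m σ hσ ho
  rcases m with _ | m
  · refine ⟨⊤, fun A _ => ⟨1, Subsingleton.elim _ _⟩, fun _ _ _ => Submodule.mem_top,
      fun W hW => ⟨univ, univ_mem, fun k _ => ⟨0, Submodule.mem_top, mem_of_mem_nhds hW,
        Subsingleton.elim _ _⟩⟩⟩
  · obtain ⟨L, hL, hV⟩ := car_mat K m σ hσ
    have hinv : ∀ k, (σ k).transpose = σ k⁻¹ := by
      intro k
      have h1 : σ k * σ k⁻¹ = 1 := by rw [← map_mul, mul_inv_cancel, map_one]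
      calc (σ k).transpose = (σ k).transpose * (σ k * σ k⁻¹) := by rw [h1, mul_one]
        _ = ((σ k).transpose * σ k) * σ k⁻¹ := by rw [mul_assoc]
        _ = σ k⁻¹ := by rw [ho, one_mul]
    refine ⟨L, fun A hA => ?_, fun k A hA => ?_, hV⟩
    · obtain ⟨k, hk⟩ := (hL A).1 hA 1
      exact ⟨k, by rw [hk, one_smul]⟩
    · rw [hL]
      intro t
      obtain ⟨l, hl⟩ := (hL A).1 hA t
      refine ⟨k * l * k⁻¹, ?_⟩
      let U : (Matrix (Fin (m + 1)) (Fin (m + 1)) ℝ)ˣ :=
        ⟨σ k, σ k⁻¹, by rw [← map_mul, mul_inv_cancel, map_one],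
          by rw [← map_mul, inv_mul_cancel, map_one]⟩
      have h2 := Matrix.exp_units_conj U (t • A)
      have h3 : (U : Matrix (Fin (m + 1)) (Fin (m + 1)) ℝ) * (t • A) *
          ((U⁻¹ : (Matrix (Fin (m + 1)) (Fin (m + 1)) ℝ)ˣ) : Matrix (Fin (m + 1)) (Fin (m + 1)) ℝ)
          = t • (σ k * A * (σ k).transpose) := by
        rw [hinv, mul_smul_comm, smul_mul_assoc]
        rfl
      rw [h3] at h2
      rw [h2, map_mul, map_mul, hl]
      rfl

end Pool.Agent.H29.GY
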