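import Pool.Agent.H95.GY.Targets

/-!
Module LS of the board gy_modules: the linear space of one-parameter groups is finite-dimensional.
-/

set_option autoImplicit false

open Filter Topology MeasureTheory Set
open scoped Pointwise BoundedContinuousFunction

universe u

namespace Pool.Agent.H29.GY

open Pool.Agent.H95.GY

section

variable {Q : Type u} [Group Q] [TopologicalSpace Q]

theorem ls_bdd {φ : Q → ℝ} {X : ℝ → Q} {D : Q → ℝ} {C : ℝ} (hb : ∀ x, |φ x| ≤ C)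
    (h : HasD φ X D) : ∃ M : ℝ, ∀ x, |D x| ≤ M := by
  obtain ⟨-, c, hc, t₀, ht₀, hD⟩ := h
  refine ⟨(2 * C + c * t₀ ^ 2) / t₀, fun x => ?_⟩
  rw [le_div_iff₀ ht₀]
  have h1 := hD t₀ x (abs_of_pos ht₀).le
  have h2 := hb x
  have h3 := hb (X t₀ * x)
  have h4 : |D x| * t₀ = |t₀ * D x| := by rw [abs_mul, abs_of_pos ht₀, mul_comm]
  rw [h4]
  have h5 : t₀ * D x = -(φ (X t₀ * x) - φ x - t₀ * D x) + φ (X t₀ * x) - φ x := by ring
  rw [h5]
  calc |-(φ (X t₀ * x) - φ x - t₀ * D x) + φ (X t₀ * x) - φ x|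
      ≤ |-(φ (X t₀ * x) - φ x - t₀ * D x) + φ (X t₀ * x)| + |φ x| := abs_sub _ _
    _ ≤ |-(φ (X t₀ * x) - φ x - t₀ * D x)| + |φ (X t₀ * x)| + |φ x| := by
        gcongr
        exact abs_add_le _ _
    _ ≤ c * t₀ ^ 2 + C + C := by
        rw [abs_neg]
        gcongr
    _ = _ := by ring

theorem ls_cont [IsTopologicalGroup Q] {φ : Q → ℝ} {X : ℝ → Q} {D : Q → ℝ} (hφ : Continuous φ)
    (h : HasD φ X D) : Continuous D := by
  obtain ⟨-, c, hc, t₀, ht₀, hD⟩ := h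
  apply continuous_of_uniform_approx_of_continuous
  intro u hu
  obtain ⟨ε, hε, hu⟩ := Metric.mem_uniformity_dist.1 hu
  set t : ℝ := min t₀ (ε / (2 * c)) with ht
  have htp : 0 < t := lt_min ht₀ (by positivity)
  refine ⟨fun x => (φ (X t * x) - φ x) / t, ?_, fun x => ?_⟩
  · exact ((hφ.comp (continuous_const.mul continuous_id)).sub hφ).div_const _
  · apply hu
    rw [Real.dist_eq, abs_sub_comm]
    have h1 := hD t x (by rw [abs_of_pos htp]; exact min_le_left _ _)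
    have h2 : (φ (X t * x) - φ x) / t - D x = (φ (X t * x) - φ x - t * D x) / t := by
      field_simp
    rw [h2, abs_div, abs_of_pos htp, div_lt_iff₀ htp]
    have h3 : t ≤ ε / (2 * c) := min_le_right _ _
    have h4 : c * t ^ 2 ≤ (ε / 2) * t := by
      have : c * t ≤ ε / 2 := by
        calc c * t ≤ c * (ε / (2 * c)) := by gcongr
          _ = ε / 2 := by field_simp
      nlinarith
    have h5 : (ε / 2) * t < ε * t := by
      apply mul_lt_mul_of_pos_right _ htp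
      linarith
    linarith

theorem ls_zero {φ : Q → ℝ} : HasD φ (fun _ => (1 : Q)) (fun _ => 0) := by
  refine ⟨⟨continuous_const, fun s t => by simp⟩, 1, one_pos, 1, one_pos, fun t x _ => ?_⟩
  simp
  positivity

theorem ls_smul {φ : Q → ℝ} {X : ℝ → Q} {D : Q → ℝ} (h : HasD φ X D) (a : ℝ) :
    HasD φ (fun t => X (a * t)) (fun x => a * D x) := by
  obtain ⟨hX, c, hc, t₀, ht₀, hD⟩ := h
  refine ⟨hX.scale a, c * (a ^ 2 + 1), by positivity, t₀ / (|a| + 1), by positivity,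
    fun t x ht => ?_⟩
  have h1 : |a * t| ≤ t₀ := by
    rw [abs_mul]
    have h2 : |t| * (|a| + 1) ≤ t₀ := by
      rw [← le_div_iff₀ (by positivity)]
      exact ht
    nlinarith [abs_nonneg a, abs_nonneg t]
  have h3 := hD (a * t) x h1
  have h4 : φ (X (a * t) * x) - φ x - t * (a * D x) =
      φ (X (a * t) * x) - φ x - a * t * D x := by ring
  simp only
  rw [h4]
  refine h3.trans ?_
  nlinarith [sq_nonneg t, mul_nonneg hc.le (sq_nonneg t)]

end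

theorem ls_fd {B : Type u} [NormedAddCommGroup B] [NormedSpace ℝ B]
    (h : ∀ D : ℕ → B, (∀ i, ‖D i‖ ≤ 1) → ∃ E : B, ∀ ε : ℝ, 0 < ε →
      ∀ᶠ i in (hyperfilter ℕ : Filter ℕ), ‖D i - E‖ ≤ ε) :
    ∃ (n : ℕ) (T : (Fin n → ℝ) ≃ₗ[ℝ] B) (a : ℝ), 0 < a ∧ (∀ v, ‖T v‖ ≤ a * ‖v‖) ∧
      ∀ v, ‖v‖ ≤ a * ‖T v‖ := by
  have hcomp : IsCompact (Metric.closedBall (0 : B) 1) := by
    apply IsSeqCompact.isCompact
    intro D hD
    obtain ⟨E, hE⟩ := h D (fun i => by simpa using hD i)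
    have ht : Tendsto D (hyperfilter ℕ : Filter ℕ) (𝓝 E) := by
      rw [Metric.tendsto_nhds]
      intro ε hε
      filter_upwards [hE (ε / 2) (by positivity)] with i hi
      rw [dist_eq_norm]
      linarith
    have hcl : E ∈ Metric.closedBall (0 : B) 1 :=
      Metric.isClosed_closedBall.mem_of_tendsto ht (Eventually.of_forall hD)
    refine ⟨E, hcl, ?_⟩
    have hle : (hyperfilter ℕ : Filter ℕ) ≤ atTop := by
      rw [← Nat.cofinite_eq_atTop]
      exact hyperfilter_le_cofinite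
    have hmc : MapClusterPt E atTop D := by
      have h3 : (hyperfilter ℕ : Filter ℕ).map D ≤ 𝓝 E := ht
      have h4 : (hyperfilter ℕ : Filter ℕ).map D ≤ atTop.map D := map_mono hle
      exact (neBot_of_le (le_inf h3 h4))
    exact hmc.tendsto_subseq
  have : FiniteDimensional ℝ B := FiniteDimensional.of_isCompact_closedBall ℝ one_pos hcomp
  let T : (Fin (Module.finrank ℝ B) → ℝ) ≃L[ℝ] B :=
    ContinuousLinearEquiv.ofFinrankEq (by rw [Module.finrank_fin_fun])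
  refine ⟨Module.finrank ℝ B, T.toLinearEquiv,
    ‖(T : (Fin (Module.finrank ℝ B) → ℝ) →L[ℝ] B)‖ +
      ‖(T.symm : B →L[ℝ] (Fin (Module.finrank ℝ B) → ℝ))‖ + 1, by positivity, ?_, ?_⟩
  · intro v
    calc ‖T.toLinearEquiv v‖ = ‖(T : (Fin (Module.finrank ℝ B) → ℝ) →L[ℝ] B) v‖ := rfl
      _ ≤ ‖(T : (Fin (Module.finrank ℝ B) → ℝ) →L[ℝ] B)‖ * ‖v‖ :=
          ContinuousLinearMap.le_opNorm _ _
      _ ≤ _ := by
          gcongr
          have := norm_nonneg (T.symm : B →L[ℝ] (Fin (Module.finrank ℝ B) → ℝ))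
          linarith
  · intro v
    calc ‖v‖ = ‖(T.symm : B →L[ℝ] (Fin (Module.finrank ℝ B) → ℝ)) (T v)‖ := by
          simp
      _ ≤ ‖(T.symm : B →L[ℝ] (Fin (Module.finrank ℝ B) → ℝ))‖ * ‖T v‖ :=
          ContinuousLinearMap.le_opNorm _ _
      _ ≤ (‖(T : (Fin (Module.finrank ℝ B) → ℝ) →L[ℝ] B)‖ +
          ‖(T.symm : B →L[ℝ] (Fin (Module.finrank ℝ B) → ℝ))‖ + 1) * ‖T v‖ := by
          gcongr
          have := norm_nonneg (T : (Fin (Module.finrank ℝ B) → ℝ) →L[ℝ] B)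
          linarith

theorem pf_LS (hHU : T_HU.{u}) (hHS : T_HS.{u}) (hHC : T_HC.{u}) : T_LS.{u} := by
  intro Q _ _ _ _ ν φ r C h
  have bd : ∀ x, |φ x| ≤ C := h.phi_bd
  -- the submodule
  let L : Submodule ℝ (Q →ᵇ ℝ) :=
    { carrier := {D | ∃ X : ℝ → Q, HasD φ X (fun x => D x)}
      zero_mem' := ⟨fun _ => 1, ls_zero⟩
      add_mem' := by
        rintro D D' ⟨X, hX⟩ ⟨Y, hY⟩
        obtain ⟨Z, hZ, -⟩ := hHS Q ν φ r C h X Y _ _ hX hY
        exact ⟨Z, hZ⟩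
      smul_mem' := by
        rintro a D ⟨X, hX⟩
        exact ⟨_, ls_smul hX a⟩ }
  obtain ⟨n, T, a, ha, h1, h2⟩ := ls_fd (B := L) (by
    intro D hD
    have hmem : ∀ i, ∃ X : ℝ → Q, HasD φ X (fun x => (D i : Q →ᵇ ℝ) x) := fun i => (D i).2
    choose X hX using hmem
    have hbd : ∀ i x, |(D i : Q →ᵇ ℝ) x| ≤ 1 := by
      intro i x
      calc |(D i : Q →ᵇ ℝ) x| = ‖(D i : Q →ᵇ ℝ) x‖ := rfl
        _ ≤ ‖(D i : Q →ᵇ ℝ)‖ := BoundedContinuousFunction.norm_coe_le_norm _ _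
        _ ≤ 1 := hD i
    obtain ⟨X₀, D₀, hX₀, -, hlim⟩ := hHC Q ν φ r C h X (fun i x => (D i : Q →ᵇ ℝ) x) 1 hX hbd
      (hyperfilter ℕ)
    obtain ⟨M, hM⟩ := ls_bdd bd hX₀
    let E₀ : Q →ᵇ ℝ := BoundedContinuousFunction.ofNormedAddCommGroup D₀ (ls_cont h.phi_cont hX₀)
      M (fun x => hM x)
    have hE : E₀ ∈ L := ⟨X₀, hX₀⟩
    refine ⟨⟨E₀, hE⟩, fun ε hε => ?_⟩
    filter_upwards [hlim ε hε] with i hi
    change ‖((D i : Q →ᵇ ℝ) - E₀)‖ ≤ ε
    rw [BoundedContinuousFunction.norm_le hε.le]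
    intro x
    exact hi x)
  have hex : ∀ v, ∃ X : ℝ → Q, HasD φ X (fun x => (T v : Q →ᵇ ℝ) x) := fun v => (T v).2
  choose e he using hex
  refine ⟨n, e, fun v x => (T v : Q →ᵇ ℝ) x, he, ?_, ?_, ?_, a, ha, ?_, ?_⟩
  · intro X D hD
    obtain ⟨M, hM⟩ := ls_bdd bd hD
    let E : Q →ᵇ ℝ := BoundedContinuousFunction.ofNormedAddCommGroup D (ls_cont h.phi_cont hD)
      M (fun x => hM x)
    have hE : E ∈ L := ⟨X, hD⟩
    refine ⟨T.symm ⟨E, hE⟩, ?_, ?_⟩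
    · have h1 := he (T.symm ⟨E, hE⟩)
      rw [LinearEquiv.apply_symm_apply] at h1
      exact hHU Q ν φ r C h _ _ _ h1 hD
    · funext x
      change (T (T.symm ⟨E, hE⟩) : Q →ᵇ ℝ) x = D x
      rw [LinearEquiv.apply_symm_apply]
      rfl
  · intro v w x
    change (T (v + w) : Q →ᵇ ℝ) x = _
    rw [map_add]
    rfl
  · intro c v x
    change (T (c • v) : Q →ᵇ ℝ) x = _
    rw [map_smul]
    rfl
  · intro v x
    calc |(T v : Q →ᵇ ℝ) x| = ‖(T v : Q →ᵇ ℝ) x‖ := rfl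
      _ ≤ ‖(T v : Q →ᵇ ℝ)‖ := BoundedContinuousFunction.norm_coe_le_norm _ _
      _ ≤ _ := h1 v
  · intro v M hM
    have hM0 : 0 ≤ M := (abs_nonneg _).trans (hM 1)
    have h3 : ‖(T v : Q →ᵇ ℝ)‖ ≤ M := by
      rw [BoundedContinuousFunction.norm_le hM0]
      exact hM
    calc ‖v‖ ≤ a * ‖T v‖ := h2 v
      _ ≤ a * M := by
          gcongr
          exact h3

end Pool.Agent.H29.GY
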